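import Pool.Agent.W117.GH.Stm

namespace Pool.Agent.W214.GH

open MeasureTheory

theorem main : Pool.Agent.W117.GH.PropIN := by
  intro f C hf hb
  have hcomp : IsCompact (Metric.closedBall (0 : ℂ) 2) := isCompact_closedBall _ _
  obtain ⟨M, hM⟩ := hcomp.exists_bound_of_continuousOn hf.continuousOn
  have hM0 : 0 ≤ M := (norm_nonneg _).trans (hM 0 (by simp))
  set K : ℝ := max (M * 3 ^ (4 : ℝ)) (|C| * 2 ^ (4 : ℝ)) with hK
  have hint : Integrable (fun z : ℂ => K * (1 + ‖z‖) ^ (-(4 : ℝ))) := by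
    refine Integrable.const_mul ?_ K
    apply integrable_one_add_norm
    rw [Complex.finrank_real_complex]
    norm_num
  refine hint.mono' hf.aestronglyMeasurable (Filter.Eventually.of_forall fun z => ?_)
  have h1z : 0 < 1 + ‖z‖ := by positivity
  rw [Real.rpow_neg h1z.le]
  rw [← div_eq_mul_inv, le_div_iff₀ (Real.rpow_pos_of_pos h1z _)]
  by_cases hz : ‖z‖ ≤ 2
  · have h2 : ‖f z‖ ≤ M := hM z (by simpa using hz)
    refine le_trans ?_ (le_max_left _ _)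
    have h3 : (1 + ‖z‖) ^ (4 : ℝ) ≤ 3 ^ (4 : ℝ) :=
      Real.rpow_le_rpow h1z.le (by linarith) (by norm_num)
    exact mul_le_mul h2 h3 (by positivity) hM0
  · rw [not_le] at hz
    refine le_trans ?_ (le_max_right _ _)
    have h2 : ‖f z‖ ≤ |C| * ‖z‖ ^ (-(4 : ℝ)) := by
      have := hb z hz.le
      rw [Real.norm_eq_abs]
      refine this.trans (mul_le_mul_of_nonneg_right (le_abs_self C) ?_)
      positivity
    have hz0 : 0 < ‖z‖ := by linarith
    have h3 : (1 + ‖z‖) ^ (4 : ℝ) ≤ 2 ^ (4 : ℝ) * ‖z‖ ^ (4 : ℝ) := by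
      rw [← Real.mul_rpow (by norm_num) hz0.le]
      exact Real.rpow_le_rpow h1z.le (by linarith) (by norm_num)
    calc ‖f z‖ * (1 + ‖z‖) ^ (4 : ℝ)
        ≤ (|C| * ‖z‖ ^ (-(4 : ℝ))) * (2 ^ (4 : ℝ) * ‖z‖ ^ (4 : ℝ)) :=
          mul_le_mul h2 h3 (by positivity) (by positivity)
      _ = |C| * 2 ^ (4 : ℝ) := by
          have h5 : ‖z‖ ^ (-(4 : ℝ)) * ‖z‖ ^ (4 : ℝ) = 1 := by
            rw [← Real.rpow_add hz0]
            norm_num
          calc _ = |C| * 2 ^ (4 : ℝ) * (‖z‖ ^ (-(4 : ℝ)) * ‖z‖ ^ (4 : ℝ)) := by ring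
            _ = _ := by rw [h5, mul_one]

end Pool.Agent.W214.GH
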